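import Pool.Agent.NBT.StmtsF

/-! NBT, row CHX: change of the vertices in the two-element levels (helper40). -/

set_option autoImplicit false

open Matrix Filter Topology

namespace Pool.Agent.NBT.H40

open Pool.Agent.PFS Pool.Agent.PFJ Pool.Agent.NBT

theorem chx (hTbf : TbfStmt) : ChxStmt := by
  intro n C Γ Γ₀ K T c h w hW τ hτ w' hw' hpair
  have hC : PCone C := h.cc.toPCone
  have hul := h.cc.hul
  have hw : IsPES C Γ w := h.pes w hW
  obtain ⟨t1, -, t3, -, -, t6, -, t8, -, -, t11, -, -⟩ := hTbf n C Γ Γ₀ K T c h w hW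
  have hcl : ∀ i, w i ∈ closure C := fun i => hw.1.cl i
  have hcl' : ∀ i, w' i ∈ closure C := fun i => (hw' i).2.1
  have hK : 3 ≤ K := h.three
  -- upper bounds
  have hN : ∀ i, ∃ N : ℝ, 0 < N ∧ N • (w i + w (τ i)) - w' i ∈ closure C := by
    intro i
    obtain ⟨N, hN0, hN1⟩ := (t1 {i, τ i}).2.2 (w' i) (hw' i).1
    refine ⟨N, hN0, ?_⟩
    by_cases hi : τ i = i
    · have e1 : fS w {i, τ i} = w i := by
        rw [hi, Finset.pair_eq_singleton]
        exact Finset.sum_singleton _ _
      rw [e1] at hN1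
      have e2 : N • (w i + w (τ i)) - w' i = (N • w i - w' i) + N • w i := by
        rw [hi, smul_add]
        abel
      rw [e2]
      exact hC.cl_add hN1 (hC.cl_smul (hcl i) hN0.le)
    · have e1 : fS w {i, τ i} = w i + w (τ i) := Finset.sum_pair (Ne.symm hi)
      rwa [e1] at hN1
  choose N hN0 hN1 using hN
  -- lower bounds
  have hM : ∀ i, ∃ M : ℝ, 0 < M ∧ M • (∑ j, w' j) - w i ∈ closure C := by
    intro i
    by_cases hi : τ i = i
    · have h1 := (hw' i).1
      rw [hi, Finset.pair_eq_singleton] at h1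
      obtain ⟨a, ha⟩ := t8 i _ h1
      have hne := (hw' i).2.2
      have ha0 : 0 < a := by
        rcases lt_trichotomy a 0 with h2 | h2 | h2
        · exfalso
          have h3 : -w i ∈ closure C := by
            have h4 := hC.cl_smul_pos (hcl' i) (t := (-a)⁻¹) (inv_pos.mpr (neg_pos.mpr h2))
            rw [ha, smul_smul] at h4
            have e : (-a)⁻¹ * a = -1 := by
              rw [inv_neg, neg_mul, inv_mul_cancel₀ h2.ne]
            rwa [e, neg_one_smul] at h4
          have h5 := hC.salient _ (hcl i) h3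
          exact hne (by rw [ha, h5, smul_zero])
        · exact absurd (by rw [ha, h2, zero_smul]) hne
        · exact h2
      refine ⟨a⁻¹, inv_pos.mpr ha0, ?_⟩
      have e1 : w i = a⁻¹ • w' i := by
        rw [ha, smul_smul, inv_mul_cancel₀ ha0.ne', one_smul]
      rw [e1, ← smul_sub, ← Finset.add_sum_erase _ _ (Finset.mem_univ i), add_sub_cancel_left]
      exact hC.cl_smul (hC.cl_sum fun j _ => hcl' j) (inv_pos.mpr ha0).le
    · obtain ⟨h1, -⟩ := hpair i hi
      have h2 : w' (τ i) ∈ BI C w {i, τ i} := by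
        have := (hw' (τ i)).1
        rwa [hτ i, Finset.pair_comm] at this
      obtain ⟨M, hM0, hM1⟩ := (t11 i (τ i) (Ne.symm hi) _ (hw' i).1 _ h2 (hcl' i)
        (hcl' (τ i)) h1).2.2 (w i) ((t6 i _).2 (Finset.mem_insert_self _ _))
      refine ⟨M, hM0, ?_⟩
      have e1 : M • (∑ j, w' j) - w i = (M • (w' i + w' (τ i)) - w i) +
          M • ∑ j ∈ ({i, τ i} : Finset (Fin K))ᶜ, w' j := by
        rw [← Finset.sum_add_sum_compl ({i, τ i} : Finset (Fin K)) w',
          Finset.sum_pair (Ne.symm hi), smul_add]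
        abel
      rw [e1]
      exact hC.cl_add hM1 (hC.cl_smul (hC.cl_sum fun j _ => hcl' j) hM0.le)
  choose M hM0 hM1 using hM
  have hsum : ∑ j, w' j ∈ C := by
    have h1 : (∑ i, M i) • (∑ j, w' j) - ∑ i, w i ∈ closure C := by
      rw [Finset.sum_smul, ← Finset.sum_sub_distrib]
      exact hC.cl_sum fun i _ => hM1 i
    have h2 := hC.mem_of_le hw.1.sum_mem h1
    refine (hC.smul_iff ?_).1 h2
    exact Finset.sum_pos (fun i _ => hM0 i) ⟨⟨0, by omega⟩, Finset.mem_univ _⟩
  -- the sum over the complement of a pair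
  have hreidx : ∀ i, ∑ j ∈ ({i, τ i} : Finset (Fin K))ᶜ, N j • (w j + w (τ j)) =
      ∑ j ∈ ({i, τ i} : Finset (Fin K))ᶜ, (N j + N (τ j)) • w j := by
    intro i
    simp only [smul_add, add_smul, Finset.sum_add_distrib]
    congr 1
    refine Finset.sum_equiv (⟨τ, τ, hτ, hτ⟩ : Fin K ≃ Fin K) ?_ ?_
    · intro j
      change j ∈ ({i, τ i} : Finset (Fin K))ᶜ ↔ τ j ∈ ({i, τ i} : Finset (Fin K))ᶜ
      simp only [Finset.mem_compl, Finset.mem_insert, Finset.mem_singleton]
      have e1 : τ j = i ↔ j = τ i := ⟨fun e => by rw [← e, hτ], fun e => by rw [e, hτ]⟩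
      have e2 : τ j = τ i ↔ j = i := ⟨fun e => by rw [← hτ j, e, hτ], fun e => by rw [e]⟩
      rw [e1, e2]
      tauto
    · intro j _
      change N j • w (τ j) = N (τ (τ j)) • w (τ j)
      rw [hτ]
  have hcompl : ∀ i, ∑ j ∈ ({i, τ i} : Finset (Fin K))ᶜ, (N j + N (τ j)) • w j -
      ∑ j ∈ ({i, τ i} : Finset (Fin K))ᶜ, w' j ∈ closure C := by
    intro i
    rw [← hreidx, ← Finset.sum_sub_distrib]
    exact hC.cl_sum fun j _ => hN1 j
  have homit : ∀ i, ∑ j ∈ Finset.univ.erase i, w' j ∉ C := by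
    intro i hi
    by_cases hr : τ i = i
    · have e1 : Finset.univ.erase i = ({i, τ i} : Finset (Fin K))ᶜ := by
        rw [hr, Finset.pair_eq_singleton]
        ext j
        simp
      rw [e1] at hi
      have h1 := hC.mem_of_le hi (hcompl i)
      have e2 : ∑ j ∈ ({i, τ i} : Finset (Fin K))ᶜ, (N j + N (τ j)) • w j =
          ∑ j, (if j = i then 0 else N j + N (τ j)) • w j := by
        rw [← e1, ← Finset.add_sum_erase Finset.univ
          (fun j => (if j = i then 0 else N j + N (τ j)) • w j) (Finset.mem_univ i), if_pos rfl,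
          zero_smul, zero_add]
        exact Finset.sum_congr rfl fun j hj => by rw [if_neg (Finset.ne_of_mem_erase hj)]
      rw [e2] at h1
      refine hw.1.bd _ ?_ ⟨i, if_pos rfl⟩ h1
      intro j
      split_ifs
      · exact le_refl _
      · exact (add_pos (hN0 j) (hN0 (τ j))).le
    · have hne : i ≠ τ i := Ne.symm hr
      have e1 : ∑ j ∈ Finset.univ.erase i, w' j =
          w' (τ i) + ∑ j ∈ ({i, τ i} : Finset (Fin K))ᶜ, w' j := by
        have h1 : ∑ j ∈ Finset.univ.erase i, w' j = (∑ j, w' j) - w' i := by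
          rw [← Finset.add_sum_erase Finset.univ w' (Finset.mem_univ i)]
          abel
        rw [h1, ← Finset.sum_add_sum_compl ({i, τ i} : Finset (Fin K)) w',
          Finset.sum_pair hne]
        abel
      rw [e1] at hi
      have h2 : w' (τ i) + ∑ j ∈ ({i, τ i} : Finset (Fin K))ᶜ, (N j + N (τ j)) • w j ∈ C := by
        refine hC.mem_of_le hi ?_
        rw [add_sub_add_left_eq_sub]
        exact hcompl i
      obtain ⟨L, hL0, hL1⟩ := hC.absorb h2 (fS w {i, τ i})
      have h3 : (L • w' (τ i) - fS w {i, τ i}) +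
          ∑ j ∈ ({i, τ i} : Finset (Fin K))ᶜ, (L * (N j + N (τ j))) • w j ∈ closure C := by
        have e3 : ∑ j ∈ ({i, τ i} : Finset (Fin K))ᶜ, (L * (N j + N (τ j))) • w j =
            L • ∑ j ∈ ({i, τ i} : Finset (Fin K))ᶜ, (N j + N (τ j)) • w j := by
          rw [Finset.smul_sum]
          exact Finset.sum_congr rfl fun j _ => by rw [smul_smul]
        have e4 : (L • w' (τ i) - fS w {i, τ i}) +
            ∑ j ∈ ({i, τ i} : Finset (Fin K))ᶜ, (L * (N j + N (τ j))) • w j =
            L • (w' (τ i) + ∑ j ∈ ({i, τ i} : Finset (Fin K))ᶜ, (N j + N (τ j)) • w j) -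
              fS w {i, τ i} := by
          rw [e3, smul_add]
          abel
        rw [e4]
        exact subset_closure hL1
      have h4 : w' (τ i) ∈ BI C w {i, τ i} := by
        have := (hw' (τ i)).1
        rwa [hτ i, Finset.pair_comm] at this
      have h5 : L • w' (τ i) - fS w {i, τ i} ∈ BI C w {i, τ i} :=
        Submodule.sub_mem _ (Submodule.smul_mem _ _ h4) (t1 _).1
      have h6 := t3 _ _ h5 _ h3
      have h7 : τ (τ i) ≠ τ i := by rw [hτ]; exact hne
      refine (hpair (τ i) h7).2 ⟨(hw' (τ i)).1, hcl' _, ?_⟩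
      intro z hz
      rw [hτ i, Finset.pair_comm] at hz
      obtain ⟨L', hL0', hL1'⟩ := (t1 {i, τ i}).2.2 z hz
      refine ⟨L' * L, mul_pos hL0' hL0, ?_⟩
      have e5 : (L' * L) • w' (τ i) - z = L' • (L • w' (τ i) - fS w {i, τ i}) +
          (L' • fS w {i, τ i} - z) := by
        rw [smul_sub, smul_smul]
        abel
      rw [e5]
      exact hC.cl_add (hC.cl_smul h6 hL0'.le) hL1'
  refine ⟨Pool.Agent.PFS.H60.crt n C hC (Fin K) w' hcl' hsum homit, ?_⟩
  intro i
  have hfH : w i + w (τ i) ∈ Hull C Γ :=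
    hul.add _ (hul.lamHull _ (hw.2 i)) _ (hul.lamHull _ (hw.2 (τ i)))
  have hf0 : w i + w (τ i) ≠ 0 := by
    intro h0
    have h1 : -w i ∈ closure C := by
      have : w (τ i) = -w i := by
        rw [add_comm] at h0
        exact eq_neg_of_add_eq_zero_left h0
      rw [← this]
      exact hcl _
    exact hul.lamNe _ (hw.2 i) (hC.salient _ (hcl i) h1)
  have hfC : w i + w (τ i) ∉ C := by
    obtain ⟨l, hl⟩ : ∃ l : Fin K, l ∉ ({i, τ i} : Finset (Fin K)) := by
      by_contra hcon
      rw [not_exists] at hcon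
      have h1 : (Finset.univ : Finset (Fin K)) ⊆ {i, τ i} := fun l _ => not_not.1 (hcon l)
      have h2 := Finset.card_le_card h1
      rw [Finset.card_univ, Fintype.card_fin] at h2
      have h3 := (Finset.card_insert_le i ({τ i} : Finset (Fin K)))
      rw [Finset.card_singleton] at h3
      omega
    rw [Finset.mem_insert, Finset.mem_singleton, not_or] at hl
    have e1 : w i + w (τ i) =
        ∑ j, ((if j = i then (1 : ℝ) else 0) + (if j = τ i then (1 : ℝ) else 0)) • w j := by
      simp only [add_smul, Finset.sum_add_distrib, ite_smul, one_smul, zero_smul,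
        Finset.sum_ite_eq', Finset.mem_univ, if_true]
    rw [e1]
    refine hw.1.bd _ ?_ ⟨l, ?_⟩
    · intro j
      positivity
    · rw [if_neg hl.1, if_neg hl.2, add_zero]
  have hfL : w i + w (τ i) ∈ LamC C Γ :=
    Pool.Agent.PFS.H37.cloF n C Γ h.cc (fun _ => w i + w (τ i)) _ (fun _ => hfH)
      tendsto_const_nhds hfC hf0
  exact Pool.Agent.PFS.H37.flmF n C Γ h.cc _ (hul.lamSmul _ hfL _ (hN0 i)) _ (hcl' i)
    (hw' i).2.2 (hN1 i)

end Pool.Agent.NBT.H40
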